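import Mathlib
import Pool.Agent.Q94.CPTree

/-! # The images of the full transformation monoids do not generate a CP monoid -/

namespace Pool.Agent.Results.MP_339db1_al.NotGenerated

open Pool.Agent.Q94.CP

/-- The element `Φ(τ_{f(1)}, …, τ_{f(d)})`. -/
def phi {M : Type*} {d : ℕ} (Φ : (Fin d → M) → M) (τ : Fin d → M) (f : Fin d → Fin d) : M :=
  Φ (fun i => τ (f i))

/-- The submonoid generated by the elements `Φ(τ_{f(1)}, …, τ_{f(d)})`, for *all* `d`-CP
structures on `M` and all maps `f : {1,…,d} → {1,…,d}`. -/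
def bigG (M : Type*) [Monoid M] : Submonoid M :=
  Submonoid.closure {x | ∃ (d : ℕ) (Φ : (Fin d → M) → M) (τ : Fin d → M) (f : Fin d → Fin d),
    IsDCP Φ τ ∧ x = phi Φ τ f}

/-- The submonoid `G` of the problem: it is generated by the elements `Φ(τ_{f(1)}, …, τ_{f(d)})`
for all `2 ≤ d`, all `d`-CP structures in `𝕊(M)` and all maps `f`. -/
def G {M : Type*} [Monoid M] (sig : M → M → M) (p q : M) : Submonoid M :=
  Submonoid.closure {x | ∃ (d : ℕ) (Φ : (Fin d → M) → M) (τ : Fin d → M) (f : Fin d → Fin d),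
    2 ≤ d ∧ InS sig p q d Φ τ ∧ x = phi Φ τ f}

theorem G_le_bigG {M : Type*} [Monoid M] {sig : M → M → M} {p q : M} (h : IsCP sig p q) :
    G sig p q ≤ bigG M := by
  refine Submonoid.closure_mono ?_
  rintro x ⟨d, Φ, τ, f, -, h2, h3⟩
  exact ⟨d, Φ, τ, f, h2.isDCP h, h3⟩

section
variable {M : Type*} [Monoid M] {d : ℕ} {Φ : (Fin d → M) → M} {τ : Fin d → M}

theorem dcp_ext (h : IsDCP Φ τ) {x y : M} (hxy : ∀ i, τ i * x = τ i * y) : x = y := by
  obtain ⟨m, rfl⟩ := h.bij.2 x
  obtain ⟨m', rfl⟩ := h.bij.2 y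
  congr 1
  funext i
  rw [← h.proj i m, ← h.proj i m', hxy]

theorem phi_mul (h : IsDCP Φ τ) (f g : Fin d → Fin d) :
    phi Φ τ f * phi Φ τ g = phi Φ τ (g ∘ f) := by
  apply dcp_ext h
  intro i
  unfold phi
  rw [← mul_assoc, h.proj, h.proj, h.proj]
  rfl

theorem phi_id (h : IsDCP Φ τ) : phi Φ τ id = 1 := by
  apply dcp_ext h
  intro i
  unfold phi
  rw [h.proj, mul_one]
  rfl

theorem tau_injective [Nontrivial M] (h : IsDCP Φ τ) : Function.Injective τ := by
  intro i j hij
  by_contra hne
  obtain ⟨y, y', hy⟩ := exists_pair_ne M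
  apply hy
  have h1 := h.proj i (fun k => if k = i then y else y')
  have h2 := h.proj j (fun k => if k = i then y else y')
  rw [hij, h2] at h1
  simp only [if_true, if_neg (Ne.symm hne)] at h1
  exact h1.symm

/-- a right invertible element `Φ(τ_f)` is a unit -/
theorem isUnit_of_right_inv [Nontrivial M] (h : IsDCP Φ τ) {f : Fin d → Fin d} {r : M}
    (hr : phi Φ τ f * r = 1) : IsUnit (phi Φ τ f) := by
  have hinj : Function.Injective f := by
    intro i j hij
    apply tau_injective h
    have h1 : ∀ k, τ (f k) * r = τ k := by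
      intro k
      rw [← h.proj k (fun i => τ (f i)), mul_assoc]
      change τ k * (phi Φ τ f * r) = τ k
      rw [hr, mul_one]
    rw [← h1 i, ← h1 j, hij]
  have hbij : Function.Bijective f := Finite.injective_iff_bijective.mp hinj
  obtain ⟨g, hgf, hfg⟩ := Function.bijective_iff_has_inverse.mp hbij
  have e1 : phi Φ τ f * phi Φ τ g = 1 := by
    rw [phi_mul h, show g ∘ f = id from funext hgf, phi_id h]
  have e2 : phi Φ τ g * phi Φ τ f = 1 := by
    rw [phi_mul h, show f ∘ g = id from funext hfg, phi_id h]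
  exact ⟨⟨_, _, e1, e2⟩, rfl⟩

/-- every right invertible element of `bigG` is a unit -/
theorem isUnit_of_mem [Nontrivial M] {x : M} (hx : x ∈ bigG M) :
    ∀ r, x * r = 1 → IsUnit x := by
  induction hx using Submonoid.closure_induction with
  | mem x hx =>
    obtain ⟨d, Φ, τ, f, h, rfl⟩ := hx
    exact fun r hr => isUnit_of_right_inv h hr
  | one => exact fun _ _ => isUnit_one
  | mul x y _ _ ihx ihy =>
    intro r hr
    have hx : IsUnit x := ihx (y * r) (by rw [← mul_assoc, hr])
    obtain ⟨u, rfl⟩ := hx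
    have hy : IsUnit y := by
      apply ihy (r * u)
      rw [← mul_assoc]
      have : y * r = ↑u⁻¹ := by
        rw [mul_assoc] at hr
        exact (Units.mul_eq_one_iff_inv_eq.mp hr).symm
      rw [this]
      simp
    exact u.isUnit.mul hy

theorem p_notMem [Nontrivial M] {sig : M → M → M} {p q : M} (h : IsCP sig p q) :
    p ∉ bigG M := by
  intro hp
  obtain ⟨u, hu⟩ := isUnit_of_mem hp (sig 1 1) (h.fst 1 1)
  exact h.not_left_inv (a := ↑u⁻¹) (by rw [← hu]; simp)

end

/-- **The answer to Q1 is negative.**  In every non-zero CP monoid the element `π₁` does not lie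
in the submonoid generated by all elements `Φ(τ_{f(1)}, …, τ_{f(d)})`, even when `(Φ; τ)` is
allowed to be an arbitrary `d`-CP structure.  In particular `G ≠ U` for the universal CP
monoid `U`; a universal CP monoid exists. -/
theorem result :
    (∀ (M : Type*) (_ : Monoid M) (_ : Nontrivial M) (sig : M → M → M) (p q : M),
      IsCP sig p q → G sig p q ≤ bigG M ∧ p ∉ bigG M) ∧
    (∀ (V : Type) (_ : Monoid V) (sig : V → V → V) (p q : V), IsCP sig p q →
      IsUniversal.{0} sig p q → G sig p q ≠ ⊤) ∧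
    ∃ (V : Type) (_ : Monoid V) (sig : V → V → V) (p q : V), IsCP sig p q ∧
      IsUniversal.{0} sig p q := by
  refine ⟨fun _ _ _ _ _ _ h => ⟨G_le_bigG h, p_notMem h⟩, fun V _ sig p q h hU hG => ?_,
    U, inferInstance, U.sig, U.p, U.q, U.isCP, U.isUniversal⟩
  have := hU.nontrivial
  exact p_notMem h (G_le_bigG h (hG ▸ Submonoid.mem_top p))

end Pool.Agent.Results.MP_339db1_al.NotGenerated
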